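import Mathlib

/-!
# Proportional choice number of complete multipartite graphs (MP_f0eba7_co)

`K_{6,2}` does not satisfy condition (H), and it is not proportionally `4`-choosable, although
`⌈6/2⌉ + ⌈2/2⌉ = 4`.
-/

namespace Pool.Agent.Results.MP_f0eba7_co.TwoSix

open Finset

variable {V : Type*} [Fintype V]

/-- The multiplicity `η(c)` of the colour `c` in the list assignment `L`. -/
def mult (L : V → Finset ℕ) (c : ℕ) : ℕ := (univ.filter fun v => c ∈ L v).card

/-- The size of the colour class of `c` in the colouring `f`. -/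
def classSize (f : V → ℕ) (c : ℕ) : ℕ := (univ.filter fun v => f v = c).card

/-- `f` is a proportional `L`-colouring of `G`, where `L` is a `k`-assignment: it is a proper
colouring from the lists, and for every colour `c` of the palette the class of `c` has size
`⌊η(c)/k⌋` or `⌈η(c)/k⌉`. -/
def IsProportional (G : SimpleGraph V) (k : ℕ) (L : V → Finset ℕ) (f : V → ℕ) : Prop :=
  (∀ v, f v ∈ L v) ∧ (∀ v w, G.Adj v w → f v ≠ f w) ∧
    ∀ c, (∃ v, c ∈ L v) →
      classSize f c = mult L c / k ∨ classSize f c = (mult L c + k - 1) / k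

/-- `G` is proportionally `k`-choosable. -/
def PropChoosable (G : SimpleGraph V) (k : ℕ) : Prop :=
  ∀ L : V → Finset ℕ, (∀ v, (L v).card = k) → ∃ f : V → ℕ, IsProportional G k L f

/-- The proportional choice number: the least (positive) `k` such that `G` is proportionally
`k`-choosable. -/
noncomputable def chiPC (G : SimpleGraph V) : ℕ := sInf {k : ℕ | 0 < k ∧ PropChoosable G k}

/-- The complete multipartite graph with parts of sizes `n 0, …, n (t-1)`. -/
def K {t : ℕ} (n : Fin t → ℕ) : SimpleGraph (Σ i : Fin t, Fin (n i)) where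
  Adj x y := x.1 ≠ y.1
  symm := ⟨fun _ _ h => h.symm⟩
  loopless := ⟨fun _ h => h rfl⟩

/-- Condition (H): all parts have even size, and no part is larger than `s = ∑ nᵢ / 2`. -/
def CondH {t : ℕ} (n : Fin t → ℕ) : Prop :=
  (∀ i, Even (n i)) ∧ ∀ i, n i ≤ ∑ j, n j / 2

/-- the part sizes -/
def nn : Fin 2 → ℕ := ![6, 2]

/-- the list of the vertex `j` of the large part -/
def LA (j : ℕ) : Finset ℕ :=
  if j = 0 ∨ j = 3 then {0, 1, 5, 6} else if j = 1 ∨ j = 2 then {0, 1, 4, 6} else {0, 1, 4, 5}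

/-- the bad assignment -/
def LL (v : Σ i : Fin 2, Fin (nn i)) : Finset ℕ :=
  if v.1 = 0 then LA v.2.val else {0, 1, 2, 3}

theorem LL_card (v : Σ i : Fin 2, Fin (nn i)) : (LL v).card = 4 := by
  revert v
  decide

theorem LA_mem : ∀ j : Fin 6, ∀ x ∈ LA j.val, x = 0 ∨ x = 1 ∨ x = 4 ∨ x = 5 ∨ x = 6 := by
  decide

theorem m0 : mult LL 0 = 8 := by decide
theorem m1 : mult LL 1 = 8 := by decide
theorem m4 : mult LL 4 = 4 := by decide
theorem m5 : mult LL 5 = 4 := by decide
theorem m6 : mult LL 6 = 4 := by decide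

/-- number of vertices of the large part with colour `c` -/
def cA (f : (Σ i : Fin 2, Fin (nn i)) → ℕ) (c : ℕ) : ℕ :=
  ∑ j : Fin 6, if f ⟨0, j⟩ = c then 1 else 0

/-- number of vertices of the small part with colour `c` -/
def cB (f : (Σ i : Fin 2, Fin (nn i)) → ℕ) (c : ℕ) : ℕ :=
  ∑ j : Fin 2, if f ⟨1, j⟩ = c then 1 else 0

theorem class_eq (f : (Σ i : Fin 2, Fin (nn i)) → ℕ) (c : ℕ) :
    classSize f c = cA f c + cB f c := by
  unfold classSize cA cB
  rw [Finset.card_filter, Fintype.sum_sigma, Fin.sum_univ_two]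
  rfl

theorem not4 : ¬ PropChoosable (K nn) 4 := by
  intro h
  obtain ⟨f, hL, hp, hs⟩ := h LL LL_card
  have mem0 : ∀ j : Fin 6, f ⟨0, j⟩ = 0 ∨ f ⟨0, j⟩ = 1 ∨ f ⟨0, j⟩ = 4 ∨ f ⟨0, j⟩ = 5 ∨
      f ⟨0, j⟩ = 6 := by
    intro j
    have h1 := hL ⟨0, j⟩
    exact LA_mem j _ h1
  have mem1 : ∀ j : Fin 2, f ⟨1, j⟩ = 0 ∨ f ⟨1, j⟩ = 1 ∨ f ⟨1, j⟩ = 2 ∨ f ⟨1, j⟩ = 3 := by
    intro j
    have h1 := hL ⟨1, j⟩
    have h2 : f ⟨1, j⟩ ∈ ({0, 1, 2, 3} : Finset ℕ) := h1
    simpa using h2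
  have hA : cA f 0 + cA f 1 + cA f 4 + cA f 5 + cA f 6 = 6 := by
    unfold cA
    rw [← Finset.sum_add_distrib, ← Finset.sum_add_distrib, ← Finset.sum_add_distrib,
      ← Finset.sum_add_distrib]
    have : ∀ j : Fin 6, ((((if f ⟨0, j⟩ = 0 then 1 else 0) + if f ⟨0, j⟩ = 1 then 1 else 0)
        + if f ⟨0, j⟩ = 4 then 1 else 0) + if f ⟨0, j⟩ = 5 then 1 else 0)
        + (if f ⟨0, j⟩ = 6 then 1 else 0) = 1 := by
      intro j
      rcases mem0 j with e | e | e | e | e <;> rw [e] <;> rfl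
    rw [Finset.sum_congr rfl fun j _ => this j]
    rfl
  have hB : ∀ c, c = 4 ∨ c = 5 ∨ c = 6 → cB f c = 0 := by
    intro c hc
    unfold cB
    apply Finset.sum_eq_zero
    intro j _
    rw [if_neg]
    intro e
    rcases mem1 j with e' | e' | e' | e' <;> omega
  have s0 := hs 0 ⟨⟨0, (0 : Fin 6)⟩, by decide⟩
  have s1 := hs 1 ⟨⟨0, (0 : Fin 6)⟩, by decide⟩
  have s4 := hs 4 ⟨⟨0, (1 : Fin 6)⟩, by decide⟩
  have s5 := hs 5 ⟨⟨0, (0 : Fin 6)⟩, by decide⟩
  have s6 := hs 6 ⟨⟨0, (0 : Fin 6)⟩, by decide⟩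
  rw [m0, class_eq] at s0
  rw [m1, class_eq] at s1
  rw [m4, class_eq, hB 4 (by omega)] at s4
  rw [m5, class_eq, hB 5 (by omega)] at s5
  rw [m6, class_eq, hB 6 (by omega)] at s6
  have key : ∀ c, cA f c = 0 ∨ cB f c = 0 := by
    intro c
    by_contra hcon
    push Not at hcon
    obtain ⟨j, _, hj⟩ := Finset.exists_ne_zero_of_sum_ne_zero hcon.1
    obtain ⟨i, _, hi⟩ := Finset.exists_ne_zero_of_sum_ne_zero hcon.2
    have e1 : f ⟨0, j⟩ = c := by
      by_contra hne
      exact hj (if_neg hne)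
    have e2 : f ⟨1, i⟩ = c := by
      by_contra hne
      exact hi (if_neg hne)
    exact hp ⟨0, j⟩ ⟨1, i⟩ (by show (0 : Fin 2) ≠ 1; decide) (e1.trans e2.symm)
  have k0 := key 0
  have k1 := key 1
  omega

theorem nonempty : ∃ k, 0 < k ∧ PropChoosable (K nn) k := by
  refine ⟨9, by norm_num, fun L hL => ?_⟩
  have hcard : Fintype.card (Σ i : Fin 2, Fin (nn i)) = 8 := by decide
  obtain ⟨f, hinj, hf⟩ := (Finset.all_card_le_biUnion_card_iff_exists_injective L).1 (by
    intro s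
    rcases s.eq_empty_or_nonempty with rfl | ⟨v, hv⟩
    · simp
    · have h1 : (L v).card ≤ (s.biUnion L).card :=
        Finset.card_le_card (Finset.subset_biUnion_of_mem L hv)
      have h2 : s.card ≤ 8 := hcard ▸ Finset.card_le_univ s
      rw [hL] at h1
      omega)
  refine ⟨f, hf, fun v w hvw he => ?_, fun c hc => ?_⟩
  · have := hinj he
    subst this
    exact hvw rfl
  · have h1 : classSize f c ≤ 1 := by
      unfold classSize
      rw [Finset.card_le_one]
      intro a ha b hb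
      rw [Finset.mem_filter] at ha hb
      exact hinj (ha.2.trans hb.2.symm)
    have h2 : mult L c ≤ 8 := hcard ▸ Finset.card_le_univ _
    have h3 : 0 < mult L c := by
      obtain ⟨v, hv⟩ := hc
      exact Finset.card_pos.2 ⟨v, Finset.mem_filter.2 ⟨Finset.mem_univ _, hv⟩⟩
    have h4 : mult L c / 9 = 0 := by omega
    have h5 : (mult L c + 9 - 1) / 9 = 1 := by omega
    rw [h4, h5]
    omega

/-- There is a complete multipartite graph `G = K_{n_1,…,n_t}` with `t ≥ 2` nonempty parts which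
does not satisfy (H) and whose proportional choice number (a minimum over a nonempty set) is not
`∑ ⌈nᵢ/2⌉`: namely `K_{6,2}`, which is not proportionally `4`-choosable. -/
theorem result : ∃ (t : ℕ) (n : Fin t → ℕ), 2 ≤ t ∧ (∀ i, 1 ≤ n i) ∧ ¬ CondH n ∧
    (∃ k, 0 < k ∧ PropChoosable (K n) k) ∧
    ¬ PropChoosable (K n) (∑ i, (n i + 1) / 2) ∧
    chiPC (K n) ≠ ∑ i, (n i + 1) / 2 := by
  have hsum : ∑ i, (nn i + 1) / 2 = 4 := by decide
  refine ⟨2, nn, le_rfl, by decide, ?_, nonempty, ?_, ?_⟩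
  · rintro ⟨_, h⟩
    have := h 0
    revert this
    decide
  · rw [hsum]
    exact not4
  · rw [hsum]
    intro h
    have hne : {k : ℕ | 0 < k ∧ PropChoosable (K nn) k}.Nonempty := nonempty
    have hmem := Nat.sInf_mem hne
    unfold chiPC at h
    rw [h] at hmem
    exact not4 hmem.2

end Pool.Agent.Results.MP_f0eba7_co.TwoSix
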